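import Pool.Agent.Q8.WP.Perc

namespace Pool.Agent.Results.MP_6c3571_pr.CheegerBoundFails

open Q8.WP

/-- The weighted Cheeger upper bound for the heavy-cluster threshold of Bernoulli bond percolation
fails: there are an infinite connected locally finite graph `G` and a closed transitive group `Γ`
of automorphisms with `p_h(G,Γ) ≥ 1/20` while `1/(Φ^w_V(G)+1) ≤ 1/27`. -/
theorem result : ∃ (V : Type) (G : SimpleGraph V) (Γ : Subgroup (G ≃g G)) (o : V),
    Infinite V ∧ G.Connected ∧ (∀ x : V, (G.neighborSet x).Finite) ∧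
    IsClosedSubgroup G Γ ∧ IsTransitive G Γ ∧
    26 ≤ weightedCheeger G Γ o ∧ 1 / 20 ≤ heavyThreshold G Γ o ∧
    1 / (weightedCheeger G Γ o + 1) < heavyThreshold G Γ o :=
  ⟨V, T, Gam, o, infinite_V, connected_T, finite_nbr, closed_Gam, transitive_Gam,
    cheeger_ge, threshold_ge, main⟩

end Pool.Agent.Results.MP_6c3571_pr.CheegerBoundFails
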